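import Pool.Agent.U41.OD.Stm0
import Pool.Agent.H918R2.Quad.Reg2

/-!
# Project OD, package RC

The ring `R[t, w] / (t w - π)` over a discrete valuation ring is regular.
-/

set_option autoImplicit false

namespace Pool.Agent.U41.OD.RCp
open MvPolynomial

variable {R : Type} [CommRing R] [IsDomain R] [IsDiscreteValuationRing R]

/-- the relation -/
noncomputable def rel (π : R) : MvPolynomial (Fin 2) R := X 0 * X 1 - C π

lemma relPrime (π : R) (hπ : π ≠ 0) :
    IsRelPrime (X 0 : MvPolynomial (Fin 1) R) (-C π) := by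
  intro d hd1 hd2
  obtain ⟨e, he⟩ := hd1
  have hirr : Irreducible (X 0 : MvPolynomial (Fin 1) R) := (X_prime (i := (0 : Fin 1))).irreducible
  rcases hirr.isUnit_or_isUnit he with h | h
  · exact h
  · exfalso
    obtain ⟨v, rfl⟩ := h
    have h1 : (X 0 : MvPolynomial (Fin 1) R) ∣ -C π := by
      refine dvd_trans ⟨((v⁻¹ : (MvPolynomial (Fin 1) R)ˣ) : MvPolynomial (Fin 1) R), ?_⟩ hd2
      rw [he, mul_assoc, Units.mul_inv, mul_one]
    obtain ⟨g, hg⟩ := h1
    have h2 := congrArg (constantCoeff (R := R)) hg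
    rw [map_neg, constantCoeff_C, map_mul, constantCoeff_X, zero_mul] at h2
    exact hπ (by simpa using h2)

lemma prime_rel (π : R) (hπ : π ≠ 0) : Prime (rel π) := by
  have h1 : finSuccEquiv R 1 (rel π) =
      Polynomial.C (X 0) * Polynomial.X + Polynomial.C (-C π) := by
    unfold rel
    have e1 : (X 1 : MvPolynomial (Fin 2) R) = X (Fin.succ (0 : Fin 1)) := rfl
    have e2 : finSuccEquiv R 1 (C π) = Polynomial.C (C π) :=
      (finSuccEquiv R 1).commutes π
    rw [map_sub, map_mul, finSuccEquiv_X_zero, e1, finSuccEquiv_X_succ, e2, Polynomial.C_neg]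
    ring
  have h2 : Irreducible (finSuccEquiv R 1 (rel π)) := by
    rw [h1]
    exact Polynomial.irreducible_C_mul_X_add_C (X_ne_zero _) (relPrime π hπ)
  have h3 : Prime (finSuccEquiv R 1 (rel π)) := h2.prime
  exact (MulEquiv.prime_iff (finSuccEquiv R 1).toMulEquiv).1 h3

omit [IsDomain R] [IsDiscreteValuationRing R] in
lemma pderiv_sq {σ : Type} (Q : Ideal (MvPolynomial σ R)) (j : σ) (x : MvPolynomial σ R)
    (hx : x ∈ Q ^ 2) : pderiv j x ∈ Q := by
  rw [pow_two] at hx
  refine Submodule.mul_induction_on hx ?_ ?_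
  · intro m hm n hn
    rw [Derivation.leibniz, smul_eq_mul, smul_eq_mul]
    exact Q.add_mem (Q.mul_mem_right _ hm) (Q.mul_mem_right _ hn)
  · intro a b ha hb
    rw [map_add]
    exact Q.add_mem ha hb

/-- the relation is not in the symbolic square of a prime -/
lemma rel_not_mem (π : R) (hπ : Irreducible π) (Q : Ideal (MvPolynomial (Fin 2) R)) [Q.IsPrime]
    (hE : rel π ∈ Q) (c : MvPolynomial (Fin 2) R) (hc : c ∉ Q) : c * rel π ∉ Q ^ 2 := by
  intro h
  have hpd : ∀ j : Fin 2, pderiv j (rel π) ∈ Q := by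
    intro j
    have h1 := pderiv_sq Q j _ h
    rw [Derivation.leibniz, smul_eq_mul, smul_eq_mul] at h1
    have h2 : c * pderiv j (rel π) ∈ Q :=
      (Q.add_mem_iff_left (Q.mul_mem_right _ hE)).1 h1
    exact (Ideal.IsPrime.mem_or_mem inferInstance h2).resolve_left hc
  have h0 : (X 1 : MvPolynomial (Fin 2) R) ∈ Q := by
    have h1 := hpd 0
    unfold rel at h1
    rw [map_sub, Derivation.leibniz, pderiv_X_self, pderiv_X_of_ne (by decide), pderiv_C] at h1
    simpa using h1
  have h1 : (X 0 : MvPolynomial (Fin 2) R) ∈ Q := by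
    have h1 := hpd 1
    unfold rel at h1
    rw [map_sub, Derivation.leibniz, pderiv_X_self, pderiv_X_of_ne (by decide), pderiv_C] at h1
    simpa using h1
  have hX : ∀ i : Fin 2, (X i : MvPolynomial (Fin 2) R) ∈ Q := by
    intro i
    fin_cases i
    · exact h1
    · exact h0
  have hcc : ∀ p : MvPolynomial (Fin 2) R, p - C (constantCoeff p) ∈ Q := by
    intro p
    induction p using MvPolynomial.induction_on with
    | C r => rw [constantCoeff_C, sub_self]; exact Q.zero_mem
    | add p q hp hq =>
      rw [map_add, map_add]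
      have : p + q - (C (constantCoeff p) + C (constantCoeff q)) =
        (p - C (constantCoeff p)) + (q - C (constantCoeff q)) := by ring
      rw [this]
      exact Q.add_mem hp hq
    | mul_X p i _ =>
      rw [map_mul, constantCoeff_X, mul_zero, map_zero, sub_zero]
      exact Q.mul_mem_left _ (hX i)
  have hCπ : (C π : MvPolynomial (Fin 2) R) ∈ Q := by
    have h2 : (X 0 * X 1 : MvPolynomial (Fin 2) R) ∈ Q := Q.mul_mem_right _ h1
    have h3 : (C π : MvPolynomial (Fin 2) R) = X 0 * X 1 - rel π := by unfold rel; ring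
    rw [h3]
    exact Q.sub_mem h2 hE
  -- the contraction of `Q` is `(π)`
  have hmax : (Ideal.span {π}).IsMaximal :=
    PrincipalIdealRing.isMaximal_of_irreducible hπ
  have hcontr : ∀ p ∈ Q, constantCoeff p ∈ Ideal.span {π} := by
    intro p hp
    have h2 : C (constantCoeff p) ∈ Q := by
      have := Q.sub_mem hp (hcc p)
      simpa using this
    have h3 : Ideal.span {π} = Q.comap (C : R →+* MvPolynomial (Fin 2) R) := by
      refine hmax.eq_of_le (Ideal.IsPrime.ne_top inferInstance) ?_
      rw [Ideal.span_singleton_le_iff_mem]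
      exact hCπ
    rw [h3]
    exact h2
  have h4 : constantCoeff (c * rel π) ∈ (Ideal.span {π}) ^ 2 := by
    have h5 : (Q ^ 2).map (constantCoeff (R := R) (σ := Fin 2)) ≤ (Ideal.span {π}) ^ 2 := by
      rw [Ideal.map_pow]
      refine Ideal.pow_right_mono ?_ 2
      rw [Ideal.map_le_iff_le_comap]
      intro p hp
      exact hcontr p hp
    exact h5 (Ideal.mem_map_of_mem _ h)
  rw [Ideal.span_singleton_pow, Ideal.mem_span_singleton, map_mul] at h4
  have h6 : constantCoeff (rel π) = -π := by
    unfold rel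
    simp
  rw [h6] at h4
  have h7 : π ∣ constantCoeff c := by
    obtain ⟨g, hg⟩ := h4
    refine ⟨-g, ?_⟩
    have : π * constantCoeff c = π * (π * -g) := by linear_combination -hg
    exact mul_left_cancel₀ hπ.ne_zero this
  apply hc
  have h8 := Q.add_mem (hcc c) (show C (constantCoeff c) ∈ Q by
    obtain ⟨g, hg⟩ := h7
    rw [hg, map_mul]
    exact Q.mul_mem_right _ hCπ)
  simpa using h8

end Pool.Agent.U41.OD.RCp

namespace Pool.Agent.U41.OD
open MvPolynomial RCp Pool.Agent.H918R2.Quad

/-- Package RC -/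
theorem RC_ok : S_RC := by
  intro R _ _ _ π hπ
  have hprime := prime_rel π hπ.ne_zero
  let I : Ideal (MvPolynomial (Fin 2) R) := Ideal.span {rel π}
  have hI : I.IsPrime := (Ideal.span_singleton_prime hprime.ne_zero).2 hprime
  let t : MvPolynomial (Fin 2) R ⧸ I := Ideal.Quotient.mk I (X 0)
  let w : MvPolynomial (Fin 2) R ⧸ I := Ideal.Quotient.mk I (X 1)
  have htw : t * w = algebraMap R (MvPolynomial (Fin 2) R ⧸ I) π := by
    have h1 : Ideal.Quotient.mk I (rel π) = 0 :=
      Ideal.Quotient.eq_zero_iff_mem.2 (Ideal.mem_span_singleton_self _)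
    unfold rel at h1
    rw [map_sub, map_mul, sub_eq_zero] at h1
    exact h1
  have huniv : ∀ (A : Type) [CommRing A] [Algebra R A] (t' w' : A), t' * w' = algebraMap R A π →
      ∃ φ : (MvPolynomial (Fin 2) R ⧸ I) →ₐ[R] A, φ t = t' ∧ φ w = w' := by
    intro A _ _ t' w' h
    let v : Fin 2 → A := fun i => if i = 0 then t' else w'
    refine ⟨Ideal.Quotient.liftₐ I (aeval v) ?_, ?_, ?_⟩
    · intro a ha
      obtain ⟨g, rfl⟩ := Ideal.mem_span_singleton.1 ha
      rw [map_mul]
      have : aeval v (rel π) = 0 := by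
        unfold rel
        rw [map_sub, map_mul, aeval_X, aeval_X]
        have e1 : (aeval v) (C π : MvPolynomial (Fin 2) R) = algebraMap R A π := aeval_C _ _
        rw [e1, ← h]
        simp [v]
      rw [this, zero_mul]
    · change aeval v (X 0 : MvPolynomial (Fin 2) R) = t'
      rw [aeval_X]
      simp [v]
    · change aeval v (X 1 : MvPolynomial (Fin 2) R) = w'
      rw [aeval_X]
      simp [v]
  obtain ⟨φ, hφt, hφw⟩ := huniv R 1 π (by simp)
  refine ⟨MvPolynomial (Fin 2) R ⧸ I, inferInstance, inferInstance, t, w, ?_, ?_, htw, ?_, ?_, ?_,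
    ?_, huniv⟩
  · exact Ideal.Quotient.isDomain I
  · refine isRegularRing_iff.2 ?_
    intro q hq
    have hE : Ideal.Quotient.mk I (rel π) = 0 :=
      Ideal.Quotient.eq_zero_iff_mem.2 (Ideal.mem_span_singleton_self _)
    have hid : (q.comap (Ideal.Quotient.mk I)).map (RingHom.id _) =
        q.comap (Ideal.Quotient.mk I) := Ideal.map_id _
    have hQ : (q.comap (Ideal.Quotient.mk I)).IsPrime := Ideal.comap_isPrime _ _
    refine reg_crit_one (W := MvPolynomial (Fin 2) R) (Ideal.Quotient.mk I)
      Ideal.Quotient.mk_surjective {rel π} (by rw [Finset.coe_singleton, Ideal.mk_ker]) q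
      (RingHom.id _) (fun z => ⟨z, rfl⟩) ?_ ∅ (by simp) ?_ (rel π) hE ?_ ?_
    · intro z hz
      have h0 : z = 0 := by simpa using hz
      rw [h0]
      exact Ideal.zero_mem _
    · intro z hz
      have h0 : z = 0 := by simpa using hz
      refine ⟨1, ?_, ?_⟩
      · rw [map_one]
        exact (Ideal.ne_top_iff_one q).1 hq.ne_top
      · rw [h0, mul_zero, map_zero]
        exact Ideal.zero_mem _
    · intro c hc
      rw [hid] at hc ⊢
      exact rel_not_mem π hπ _ (by rw [Ideal.mem_comap, hE]; exact q.zero_mem) c hc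
    · simp
  · intro a b hab
    have := congrArg φ hab
    simpa using this
  · intro h
    rw [h, map_zero] at hφt
    exact zero_ne_one hφt
  · intro h
    rw [h, map_zero] at hφw
    exact hπ.ne_zero hφw.symm
  · intro z
    obtain ⟨p, rfl⟩ := Ideal.Quotient.mk_surjective z
    have ht : t ∈ Algebra.adjoin R ({t, w} : Set (MvPolynomial (Fin 2) R ⧸ I)) :=
      Algebra.subset_adjoin (Set.mem_insert _ _)
    have hw : w ∈ Algebra.adjoin R ({t, w} : Set (MvPolynomial (Fin 2) R ⧸ I)) :=
      Algebra.subset_adjoin (Set.mem_insert_of_mem _ rfl)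
    induction p using MvPolynomial.induction_on with
    | C r => exact Subalgebra.algebraMap_mem _ r
    | add p q hp hq => rw [map_add]; exact Subalgebra.add_mem _ hp hq
    | mul_X p i hp =>
      rw [map_mul]
      refine Subalgebra.mul_mem _ hp ?_
      fin_cases i
      · exact ht
      · exact hw

end Pool.Agent.U41.OD
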